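import Pool.Agent.W732.Ud.Stm
import Pool.Agent.H978R3.SL.Base

/-! UD-BL (owner helper732): a Blaschke product with multiplicities. -/

set_option autoImplicit false

open Metric Set Filter Topology Complex

namespace Pool.Agent.W216.Ud.Bl

open Pool.Agent.W732.Ud

lemma den_ne {a x : ℂ} (ha : ‖a‖ < 1) (hx : ‖x‖ < 1) : 1 - starRingEnd ℂ a * x ≠ 0 := by
  intro h
  have h1 : starRingEnd ℂ a * x = 1 := (sub_eq_zero.1 h).symm
  have h2 : ‖starRingEnd ℂ a * x‖ = 1 := by rw [h1, norm_one]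
  rw [norm_mul, RCLike.norm_conj] at h2
  nlinarith [norm_nonneg a, norm_nonneg x]

lemma ph_le_one {a x : ℂ} (ha : ‖a‖ < 1) (hx : ‖x‖ < 1) : ph a x ≤ 1 := by
  unfold ph
  rw [norm_div, div_le_one (norm_pos_iff.2 (den_ne ha hx))]
  have h1 : ‖x - a‖ ^ 2 ≤ ‖1 - starRingEnd ℂ a * x‖ ^ 2 := by
    have ha2 : a.re ^ 2 + a.im ^ 2 ≤ 1 := by
      have h2 : ‖a‖ ^ 2 = a.re ^ 2 + a.im ^ 2 := by
        rw [← normSq_eq_norm_sq, normSq_apply]
        ring
      nlinarith [norm_nonneg a]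
    have hx2 : x.re ^ 2 + x.im ^ 2 ≤ 1 := by
      have h2 : ‖x‖ ^ 2 = x.re ^ 2 + x.im ^ 2 := by
        rw [← normSq_eq_norm_sq, normSq_apply]
        ring
      nlinarith [norm_nonneg x]
    rw [← normSq_eq_norm_sq, ← normSq_eq_norm_sq, normSq_apply, normSq_apply]
    simp only [sub_re, sub_im, one_re, one_im, mul_re, mul_im, conj_re, conj_im]
    have h3 : 0 ≤ (1 - (a.re ^ 2 + a.im ^ 2)) * (1 - (x.re ^ 2 + x.im ^ 2)) :=
      mul_nonneg (by linarith) (by linarith)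
    nlinarith
  exact (sq_le_sq₀ (norm_nonneg _) (norm_nonneg _)).1 h1

lemma ph_nonneg (a x : ℂ) : 0 ≤ ph a x := norm_nonneg _

lemma sum_geo (K : ℕ) : ∑ k ∈ Finset.range K, ((1 : ℝ) / 2) ^ (k + 2) ≤ 1 / 2 := by
  have h1 : ∑ k ∈ Finset.range K, ((1 : ℝ) / 2) ^ (k + 2) = 1 / 2 - (1 / 2) ^ (K + 1) := by
    induction K with
    | zero => norm_num
    | succ K ih =>
      rw [Finset.sum_range_succ, ih]
      ring
  rw [h1]
  have : (0 : ℝ) < (1 / 2) ^ (K + 1) := by positivity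
  linarith

theorem main : S_bl := by
  intro ν M s hν hs0 hs1 hsM
  let φ : ℕ → ℂ → ℂ := fun k x => (x - ν k) / (1 - starRingEnd ℂ (ν k) * x)
  let b : ℕ → ℂ → ℂ := fun K x => ∏ k ∈ Finset.range K, φ k x ^ M k
  have hφ : ∀ k x, ‖φ k x‖ = ph (ν k) x := fun k x => rfl
  have hb : ∀ K x, ‖b K x‖ = ∏ k ∈ Finset.range K, ph (ν k) x ^ M k := by
    intro K x
    simp only [b, norm_prod, norm_pow, hφ]
  have hx1 : ∀ x ∈ ball (0 : ℂ) 1, ‖x‖ < 1 := fun x hx => by
    rwa [mem_ball, dist_zero_right] at hx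
  have hφd : ∀ k, DifferentiableOn ℂ (φ k) (ball 0 1) := by
    intro k
    refine DifferentiableOn.div (by fun_prop) (by fun_prop) ?_
    intro x hx
    exact den_ne (hν k) (hx1 x hx)
  have hbd : ∀ K, DifferentiableOn ℂ (b K) (ball 0 1) := by
    intro K
    have : b K = fun x => ∏ k ∈ Finset.range K, φ k x ^ M k := rfl
    rw [this]
    apply DifferentiableOn.fun_finsetProd
    intro k _
    exact (hφd k).pow (M k)
  have hb1 : ∀ K, ∀ x ∈ ball (0 : ℂ) 1, ‖b K x‖ ≤ 1 := by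
    intro K x hx
    rw [hb]
    exact Finset.prod_le_one (fun k _ => pow_nonneg (ph_nonneg _ _) _)
      (fun k _ => pow_le_one₀ (ph_nonneg _ _) (ph_le_one (hν k) (hx1 x hx)))
  have hU : (hyperfilter ℕ : Filter ℕ) ≤ atTop := Nat.hyperfilter_le_atTop
  obtain ⟨Φ, hΦ, hlim⟩ := Pool.Agent.H978R3.SL.montelU isOpen_ball b 1 (hyperfilter ℕ)
    (Eventually.of_forall fun K => ⟨hbd K, hb1 K⟩)
  have hpt : ∀ x ∈ ball (0 : ℂ) 1, Tendsto (fun K => ‖b K x‖) (hyperfilter ℕ : Filter ℕ)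
      (𝓝 ‖Φ x‖) := fun x hx => (hlim.tendsto_at hx).norm
  refine ⟨Φ, hΦ, ?_, ?_, ?_⟩
  · intro x hx
    exact le_of_tendsto (hpt x hx) (Eventually.of_forall fun K => hb1 K x hx)
  · intro x hx hsx
    refine ge_of_tendsto (hpt x hx) (Eventually.of_forall fun K => ?_)
    rw [hb]
    calc (1 : ℝ) / 2 ≤ Real.exp (-(1 / 2)) := by
          have := Real.add_one_le_exp (-(1 / 2) : ℝ)
          linarith
      _ ≤ Real.exp (∑ k ∈ Finset.range K, (-(1 / 2) ^ (k + 2))) := by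
          apply Real.exp_le_exp.2
          rw [Finset.sum_neg_distrib]
          linarith [sum_geo K]
      _ = ∏ k ∈ Finset.range K, Real.exp (-(1 / 2) ^ (k + 2)) := Real.exp_sum _ _
      _ ≤ _ := by
          apply Finset.prod_le_prod
          · intro k _
            positivity
          · intro k _
            exact (hsM k).trans (pow_le_pow_left₀ (hs0 k).le (hsx k) _)
  · intro k x hx
    refine le_of_tendsto (hpt x hx) (hU (eventually_gt_atTop k) |> fun h => ?_)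
    filter_upwards [h] with K hK
    rw [hb, ← Finset.mul_prod_erase _ _ (Finset.mem_range.2 hK)]
    apply mul_le_of_le_one_right (pow_nonneg (ph_nonneg _ _) _)
    exact Finset.prod_le_one (fun k _ => pow_nonneg (ph_nonneg _ _) _)
      (fun k _ => pow_le_one₀ (ph_nonneg _ _) (ph_le_one (hν k) (hx1 x hx)))

end Pool.Agent.W216.Ud.Bl
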