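import Pool.Agent.W732.Ud.Stm

/-! UD-SEP (owner helper732): a dense sequence of corona data. -/

set_option autoImplicit false

open Metric Set Filter Topology

namespace Pool.Agent.W216.Ud.Sep

open Pool.Agent.W732.Ud

/-- a strictly increasing sequence with prescribed first components -/
def sq (m : ℕ → ℕ) : ℕ → ℕ
  | 0 => Nat.pair (m 0) 0
  | n + 1 => Nat.pair (m (n + 1)) (sq m n + 1)

lemma sq_mono (m : ℕ → ℕ) : StrictMono (sq m) := by
  apply strictMono_nat_of_lt_succ
  intro n
  exact lt_of_lt_of_le (Nat.lt_succ_self _) (Nat.right_le_pair (m (n + 1)) (sq m n + 1))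

lemma sq_unpair (m : ℕ → ℕ) (n : ℕ) : (Nat.unpair (sq m n)).1 = m n := by
  cases n with
  | zero => simp [sq]
  | succ n => simp [sq]

theorem main : S_sep := by
  intro E _ _ _ H hH N δ ⟨h0, hh0⟩
  have hpr : ProperSpace E := FiniteDimensional.proper ℂ E
  have hlc : LocallyCompactSpace H := hH.locallyCompactSpace
  let S : Set C(H, Fin N → ℂ) := {g | ∃ h, Datum N δ H h ∧ ∀ x : H, ∀ i, g x i = h i x}
  have hcont : ∀ h, Datum N δ H h → Continuous (fun x : H => fun i => h i x) := by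
    intro h hd
    apply continuous_pi
    intro i
    exact continuousOn_iff_continuous_restrict.1 (hd.hol i).continuousOn
  have hSne : Nonempty S := ⟨⟨⟨_, hcont h0 hh0⟩, h0, hh0, fun _ _ => rfl⟩⟩
  have hsep : TopologicalSpace.SeparableSpace S := inferInstance
  obtain ⟨d, hd⟩ := TopologicalSpace.exists_dense_seq S
  choose D hD1 hD2 using fun m => (d m).2
  refine ⟨fun k => D (Nat.unpair k).1, fun k => hD1 _, ?_⟩
  intro h hdat
  let g : S := ⟨⟨_, hcont h hdat⟩, h, hdat, fun _ _ => rfl⟩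
  have hg : g ∈ closure (range d) := by
    rw [hd.closure_eq]
    trivial
  obtain ⟨x, hx1, hx2⟩ := mem_closure_iff_seq_limit.1 hg
  choose m hm using hx1
  refine ⟨sq m, sq_mono m, ?_⟩
  intro i K hK hKc
  have hx3 : Tendsto (fun n => (x n : C(H, Fin N → ℂ))) atTop (𝓝 (g : C(H, Fin N → ℂ))) :=
    (continuous_subtype_val.tendsto g).comp hx2
  rw [ContinuousMap.tendsto_iff_forall_isCompact_tendstoUniformlyOn] at hx3
  have hKc' : IsCompact (Subtype.val ⁻¹' K : Set H) := by
    rw [Subtype.isCompact_iff, Subtype.image_preimage_coe, inter_eq_right.2 hK]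
    exact hKc
  have h1 := hx3 _ hKc'
  rw [Metric.tendstoUniformlyOn_iff] at h1 ⊢
  intro ε hε
  filter_upwards [h1 ε hε] with n hn z hz
  have h2 := hn ⟨z, hK hz⟩ hz
  have h3 := lt_of_le_of_lt (dist_le_pi_dist _ _ i) h2
  have h4 : (x n : C(H, Fin N → ℂ)) ⟨z, hK hz⟩ i = D (m n) i z := by
    rw [← hm n]
    exact hD2 (m n) ⟨z, hK hz⟩ i
  rw [h4] at h3
  simp only [sq_unpair]
  exact h3

end Pool.Agent.W216.Ud.Sep
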